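import Mathlib

set_option autoImplicit false

/-!
The VC-dimension of generalized progressions of rank `4` in abelian groups is unbounded.
-/

namespace Pool.Agent.Results.MP_19d06a_co.UnboundedVC

/-- The value of a letter: the symbol `a_i` is `(i, true)` and the symbol `a_i⁻¹` is
`(i, false)`. -/
def letterVal {G : Type} [Group G] {k : ℕ} (a : Fin k → G) (l : Fin k × Bool) : G :=
  if l.2 = true then a l.1 else (a l.1)⁻¹

/-- The generalized progression `P(a, N)`: the values of the words in which, for every `i`, the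
letters `a_i` and `a_i⁻¹` together occur at most `N_i` times. -/
def P {G : Type} [Group G] {k : ℕ} (a : Fin k → G) (N : Fin k → ℕ) : Set G :=
  {g | ∃ w : List (Fin k × Bool), (∀ i, w.countP (fun l => l.1 = i) ≤ N i) ∧
    (w.map (letterVal a)).prod = g}

/-- The family of left translates of `A`. -/
def translates {G : Type} [Group G] (A : Set G) : Set (Set G) :=
  {S | ∃ g : G, S = (fun x => g * x) '' A}

/-- `𝒮` shatters the finite set `Y`. -/
def Shatters {X : Type} (𝒮 : Set (Set X)) (Y : Finset X) : Prop :=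
  ∀ B : Set X, B ⊆ (Y : Set X) → ∃ S ∈ 𝒮, B = S ∩ (Y : Set X)

/-- The VC-dimension of a set system. -/
noncomputable def VC {X : Type} (𝒮 : Set (Set X)) : ℕ∞ :=
  ⨆ (Y : Finset X) (_ : Shatters 𝒮 Y), (Y.card : ℕ∞)

/-- The statement Q1. -/
def Q1 : Prop := ∀ k s : ℕ, 1 ≤ k → 1 ≤ s → ∃ C : ℕ, ∀ (G : Type) [Group G],
  Group.IsNilpotent G → Group.nilpotencyClass G ≤ s →
    ∀ (a : Fin k → G) (N : Fin k → ℕ), VC (translates (P a N)) ≤ (C : ℕ∞)

section words

variable {G : Type} [CommGroup G] {k : ℕ}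

theorem mem_P_of (a : Fin k → G) (N : Fin k → ℕ) (m : Fin k → ℤ)
    (hm : ∀ i, |m i| ≤ (N i : ℤ)) : ∏ i, a i ^ m i ∈ P a N := by
  have key : ∀ s : Finset (Fin k), ∃ w : List (Fin k × Bool),
      (∀ i, w.countP (fun l => l.1 = i) ≤ if i ∈ s then N i else 0) ∧
      (w.map (letterVal a)).prod = ∏ i ∈ s, a i ^ m i := by
    intro s
    induction s using Finset.induction_on with
    | empty => exact ⟨[], by simp, by simp⟩
    | insert i s his ih =>
      obtain ⟨w, hw1, hw2⟩ := ih
      refine ⟨List.replicate (m i).natAbs (i, decide (0 ≤ m i)) ++ w, ?_, ?_⟩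
      · intro j
        rw [List.countP_append, List.countP_replicate]
        have h1 := hw1 j
        by_cases hij : i = j
        · subst hij
          rw [if_neg his] at h1
          rw [if_pos (Finset.mem_insert_self _ _)]
          have h2 := hm i
          rw [Int.abs_eq_natAbs] at h2
          simp only [decide_true, if_true]
          omega
        · have : (j ∈ insert i s) ↔ j ∈ s := by
            rw [Finset.mem_insert]
            constructor
            · rintro (h | h)
              · exact absurd h.symm hij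
              · exact h
            · exact Or.inr
          simp only [this, hij, decide_false]
          simpa using h1
      · rw [List.map_append, List.prod_append, hw2, Finset.prod_insert his, List.map_replicate,
          List.prod_replicate]
        congr 1
        by_cases h0 : 0 ≤ m i
        · have : (m i) = ((m i).natAbs : ℤ) := by omega
          rw [letterVal]
          simp only [h0, decide_true, if_true]
          conv_rhs => rw [this]
          rw [zpow_natCast]
        · have : (m i) = -((m i).natAbs : ℤ) := by omega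
          rw [letterVal]
          simp only [h0, decide_false]
          conv_rhs => rw [this]
          rw [zpow_neg, zpow_natCast]
          simp
  obtain ⟨w, hw1, hw2⟩ := key Finset.univ
  refine ⟨w, ?_, hw2⟩
  intro i
  have := hw1 i
  rwa [if_pos (Finset.mem_univ _)] at this

theorem of_mem_P (a : Fin k → G) (N : Fin k → ℕ) (g : G) (hg : g ∈ P a N) :
    ∃ m : Fin k → ℤ, (∀ i, |m i| ≤ (N i : ℤ)) ∧ g = ∏ i, a i ^ m i := by
  obtain ⟨w, hw1, rfl⟩ := hg
  have key : ∀ w : List (Fin k × Bool), ∃ m : Fin k → ℤ,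
      (∀ i, |m i| ≤ (w.countP (fun l => l.1 = i) : ℤ)) ∧
      (w.map (letterVal a)).prod = ∏ i, a i ^ m i := by
    intro w
    induction w with
    | nil => exact ⟨fun _ => 0, by simp, by simp⟩
    | cons l w ih =>
      obtain ⟨m, hm1, hm2⟩ := ih
      refine ⟨fun i => (if l.1 = i then (if l.2 = true then 1 else -1) else 0) + m i, ?_, ?_⟩
      · intro i
        rw [List.countP_cons]
        have h1 := hm1 i
        rw [abs_le] at h1 ⊢
        by_cases h : l.1 = i
        · simp only [h, if_true, decide_true]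
          push_cast
          split_ifs <;> constructor <;> linarith [h1.1, h1.2]
        · simp only [h, if_false, decide_false]
          simpa using h1
      · rw [List.map_cons, List.prod_cons, hm2]
        simp only [zpow_add, Finset.prod_mul_distrib]
        congr 1
        rw [letterVal]
        have h2 : ∀ i, a i ^ (if l.1 = i then (if l.2 = true then (1 : ℤ) else -1) else 0) =
            if l.1 = i then (if l.2 = true then a i else (a i)⁻¹) else 1 := by
          intro i
          split_ifs <;> simp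
        simp only [h2]
        rw [Finset.prod_ite_eq]
        simp
  obtain ⟨m, hm1, hm2⟩ := key w
  refine ⟨m, fun i => (hm1 i).trans ?_, hm2⟩
  exact_mod_cast hw1 i

theorem mem_P_iff (a : Fin k → G) (N : Fin k → ℕ) (g : G) :
    g ∈ P a N ↔ ∃ m : Fin k → ℤ, (∀ i, |m i| ≤ (N i : ℤ)) ∧ g = ∏ i, a i ^ m i := by
  constructor
  · exact of_mem_P a N g
  · rintro ⟨m, hm, rfl⟩
    exact mem_P_of a N m hm

end words

section sequence

/-- `0, 1, 5, 24, 115, …` -/
def X : ℕ → ℤ
  | 0 => 0
  | 1 => 1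
  | (n + 2) => 5 * X (n + 1) - X n

theorem X_succ_succ (n : ℕ) : X (n + 2) = 5 * X (n + 1) - X n := rfl

theorem X_growth (n : ℕ) : 0 ≤ X n ∧ 4 * X n ≤ X (n + 1) ∧ 0 < X (n + 1) := by
  induction n with
  | zero => simp [X]
  | succ n ih =>
    obtain ⟨h1, h2, h3⟩ := ih
    rw [X_succ_succ]
    refine ⟨h3.le, ?_, ?_⟩ <;> linarith

theorem X_nonneg (n : ℕ) : 0 ≤ X n := (X_growth n).1

theorem X_pos {n : ℕ} (h : 1 ≤ n) : 0 < X n := by
  obtain ⟨m, rfl⟩ : ∃ m, n = m + 1 := ⟨n - 1, by omega⟩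
  exact (X_growth m).2.2

theorem X_identity (i j : ℕ) : X (i + j + 1) = X (i + 1) * X (j + 1) - X i * X j := by
  induction j using Nat.strong_induction_on with
  | _ j ih =>
    match j with
    | 0 => simp [X]
    | 1 =>
      show X (i + 2) = X (i + 1) * X 2 - X i * X 1
      rw [X_succ_succ]
      have h2 : X 2 = 5 := by simp [X]
      have h1 : X 1 = 1 := rfl
      rw [h2, h1]; ring
    | (j + 2) =>
      have h1 := ih j (by omega)
      have h2 := ih (j + 1) (by omega)
      have e1 : X (i + (j + 2) + 1) = 5 * X (i + (j + 1) + 1) - X (i + j + 1) :=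
        X_succ_succ (i + j + 1)
      have e2 : X (j + 2 + 1) = 5 * X (j + 1 + 1) - X (j + 1) := X_succ_succ (j + 1)
      have e3 : X (j + 2) = 5 * X (j + 1) - X j := X_succ_succ j
      rw [e1, h1, h2, e2, e3]
      ring_nf

/-- `X_{j+1} X_{i+j} - X_j X_{i+j+1} = X_i`. -/
theorem X_identity2 (i j : ℕ) : X (j + 1) * X (i + j) - X j * X (i + j + 1) = X i := by
  induction j with
  | zero => simp [X]
  | succ j ih =>
    have e1 : X (j + 1 + 1) = 5 * X (j + 1) - X j := X_succ_succ j
    have e2 : X (i + (j + 1) + 1) = 5 * X (i + j + 1) - X (i + j) := X_succ_succ (i + j)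
    have e3 : X (i + (j + 1)) = X (i + j + 1) := rfl
    rw [e1, e2, e3, ← ih]
    ring

theorem X_mono {m n : ℕ} (h : m ≤ n) : X m ≤ X n := by
  induction h with
  | refl => exact le_refl _
  | step _ ih => 
    rename_i n _
    have h1 := X_growth n
    show X m ≤ X (n + 1)
    linarith [h1.1, h1.2.1]

theorem sum_X_lt {n : ℕ} (h : 1 ≤ n) : ∑ i ∈ Finset.range n, X i < X n := by
  induction n with
  | zero => omega
  | succ n ih =>
    rw [Finset.sum_range_succ]
    rcases Nat.eq_zero_or_pos n with h0 | h0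
    · subst h0; simp [X]
    · have h1 := ih h0
      have h2 := X_growth n
      linarith [h2.1, h2.2.1]

theorem sum_lt_of_subset {n : ℕ} (h : 1 ≤ n) (S : Finset ℕ) (hS : ∀ i ∈ S, i < n) :
    0 ≤ ∑ i ∈ S, X i ∧ ∑ i ∈ S, X i < X n := by
  refine ⟨Finset.sum_nonneg fun i _ => X_nonneg i, lt_of_le_of_lt ?_ (sum_X_lt h)⟩
  exact Finset.sum_le_sum_of_subset_of_nonneg
    (fun i hi => Finset.mem_range.2 (hS i hi)) (fun i _ _ => X_nonneg i)

/-- `M | X_j X_{K-1} - X_{K-j}` for `1 ≤ j ≤ K`. -/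
theorem congr_X {K j : ℕ} (hj1 : 1 ≤ j) (hj2 : j ≤ K) :
    X K ∣ X j * X (K - 1) - X (K - j) := by
  obtain ⟨l, rfl⟩ : ∃ l, j = l + 1 := ⟨j - 1, by omega⟩
  obtain ⟨i, rfl⟩ : ∃ i, K = i + l + 1 := ⟨K - (l + 1), by omega⟩
  have h := X_identity2 i l
  have e1 : i + l + 1 - 1 = i + l := by omega
  have e2 : i + l + 1 - (l + 1) = i := by omega
  rw [e1, e2, ← h]
  exact ⟨X l, by ring⟩

theorem det_X {K j : ℕ} (hj1 : 1 ≤ j) (hj2 : j ≤ K) :
    X K = X (K - j + 1) * X j - X (K - j) * X (j - 1) := by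
  obtain ⟨l, rfl⟩ : ∃ l, j = l + 1 := ⟨j - 1, by omega⟩
  obtain ⟨i, rfl⟩ : ∃ i, K = i + l + 1 := ⟨K - (l + 1), by omega⟩
  have h := X_identity i l
  have e2 : i + l + 1 - (l + 1) = i := by omega
  have e3 : l + 1 - 1 = l := by omega
  rw [e2, e3, h]

theorem key_lemma {K j : ℕ} (hj1 : 1 ≤ j) (hj2 : j < K) (t m : ℤ)
    (ht : |t| < X j) (hm : |m| < 2 * X (K - j)) (h : X K ∣ t * X (K - 1) - m) : m = 0 := by
  have hdet := det_X hj1 hj2.le
  have hXj := X_pos hj1
  have hθ : 0 < X (K - j) := X_pos (by omega)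
  have hg1 := (X_growth (K - j)).2.1
  have hg2 : 4 * X (j - 1) ≤ X j := by
    have := (X_growth (j - 1)).2.1
    rwa [show j - 1 + 1 = j by omega] at this
  have hbig : 3 * (X j * X (K - j)) ≤ X K := by
    rw [hdet]
    nlinarith [mul_le_mul_of_nonneg_right hg1 hXj.le, mul_le_mul_of_nonneg_right hg2 hθ.le]
  have hcj := congr_X hj1 hj2.le
  -- the first determinant vanishes
  have hdvd : X K ∣ m * X j - t * X (K - j) := by
    have e : m * X j - t * X (K - j) =
        t * (X j * X (K - 1) - X (K - j)) - X j * (t * X (K - 1) - m) := by ring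
    rw [e]
    exact dvd_sub (Dvd.dvd.mul_left hcj _) (Dvd.dvd.mul_left h _)
  have hzero : m * X j - t * X (K - j) = 0 := by
    apply Int.eq_zero_of_abs_lt_dvd hdvd
    refine lt_of_lt_of_le ?_ hbig
    have h1 : |m * X j| < 2 * (X j * X (K - j)) := by
      rw [abs_mul, abs_of_pos hXj]
      nlinarith
    have h2 : |t * X (K - j)| < X j * X (K - j) := by
      rw [abs_mul, abs_of_pos hθ]
      nlinarith
    have h3 := abs_sub (m * X j) (t * X (K - j))
    linarith
  -- the second determinant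
  have hdvd2 : X K ∣ t * X (K - j + 1) - m * X (j - 1) := by
    rcases Nat.lt_or_ge 1 j with hj | hj
    · have hc := congr_X (K := K) (j := j - 1) (by omega) (by omega)
      rw [show K - (j - 1) = K - j + 1 by omega] at hc
      have e : t * X (K - j + 1) - m * X (j - 1) =
        X (j - 1) * (t * X (K - 1) - m) - t * (X (j - 1) * X (K - 1) - X (K - j + 1)) := by ring
      rw [e]
      exact dvd_sub (Dvd.dvd.mul_left h _) (Dvd.dvd.mul_left hc _)
    · have hj' : j = 1 := by omega
      subst hj'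
      have : X (1 - 1) = 0 := rfl
      rw [this, mul_zero, sub_zero, show K - 1 + 1 = K by omega]
      exact Dvd.intro_left _ rfl
  obtain ⟨y, hy⟩ := hdvd2
  have hMpos : 0 < X K := X_pos (by omega)
  have ht2 : t = X j * y := by
    have : t * X K = (X j * y) * X K := by
      calc t * X K = t * (X (K - j + 1) * X j - X (K - j) * X (j - 1)) := by rw [← hdet]
        _ = X j * (t * X (K - j + 1) - m * X (j - 1)) + X (j - 1) * (m * X j - t * X (K - j)) := by
          ring
        _ = (X j * y) * X K := by rw [hy, hzero]; ring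
    exact mul_right_cancel₀ hMpos.ne' this
  have ht0 : t = 0 := by
    apply Int.eq_zero_of_abs_lt_dvd ⟨y, ht2⟩ ht
  rw [ht0, zero_mul, sub_zero] at hzero
  rcases mul_eq_zero.1 hzero with h0 | h0
  · exact h0
  · exact absurd h0 hXj.ne'

/-- The shattering property of the sets `{n a + m' : 0 ≤ n < X_j, θ_j ≤ m' < 2 θ_j}`. -/
theorem core {K : ℕ} (S : Finset ℕ) (hS : S ⊆ Finset.Ico 1 K) {j : ℕ} (hj : j ∈ Finset.Ico 1 K) :
    (∃ n m' : ℤ, 0 ≤ n ∧ n < X j ∧ 0 ≤ m' ∧ m' < X (K - j) ∧
      X K ∣ (∑ i ∈ S, X (K - i)) - (X (K - j) + n * X (K - 1) + m')) ↔ j ∈ S := by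
  rw [Finset.mem_Ico] at hj
  obtain ⟨hj1, hj2⟩ := hj
  set A := S.filter (fun i => i < j) with hA
  set D := S.filter (fun i => j < i) with hD
  have hSI : ∀ i ∈ S, 1 ≤ i ∧ i < K := fun i hi => Finset.mem_Ico.1 (hS hi)
  have hsplit : ∑ i ∈ S, X (K - i) = ∑ i ∈ A, X (K - i) + (if j ∈ S then X (K - j) else 0) +
      ∑ i ∈ D, X (K - i) := by
    rw [hA, hD, Finset.sum_filter, Finset.sum_filter]
    have h1 : (if j ∈ S then X (K - j) else 0) = ∑ i ∈ S, if i = j then X (K - i) else 0 := by
      rw [Finset.sum_ite_eq']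
    rw [h1, ← Finset.sum_add_distrib, ← Finset.sum_add_distrib]
    refine Finset.sum_congr rfl fun i _ => ?_
    rcases lt_trichotomy i j with h | h | h
    · rw [if_pos h, if_neg h.ne, if_neg (by omega)]; ring
    · rw [if_neg (by omega), if_pos h, if_neg (by omega)]; ring
    · rw [if_neg (by omega), if_neg h.ne', if_pos h]; ring
  set nS := ∑ i ∈ A, X i with hnS
  set mS := ∑ i ∈ D, X (K - i) with hmS
  have hn := sum_lt_of_subset hj1 A (fun i hi => (Finset.mem_filter.1 hi).2)
  have hm : 0 ≤ mS ∧ mS < X (K - j) := by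
    have h1 : mS = ∑ l ∈ D.image (fun i => K - i), X l := by
      rw [Finset.sum_image]
      intro x hx y hy hxy
      have hx2 := hSI x (Finset.mem_filter.1 hx).1
      have hy2 := hSI y (Finset.mem_filter.1 hy).1
      simp only at hxy
      omega
    rw [h1]
    apply sum_lt_of_subset (by omega)
    intro l hl
    obtain ⟨i, hi, rfl⟩ := Finset.mem_image.1 hl
    have h2 := (Finset.mem_filter.1 hi).2
    have h3 := hSI i (Finset.mem_filter.1 hi).1
    omega
  have hdvd : X K ∣ nS * X (K - 1) - ∑ i ∈ A, X (K - i) := by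
    rw [hnS, Finset.sum_mul, ← Finset.sum_sub_distrib]
    apply Finset.dvd_sum
    intro i hi
    have h3 := hSI i (Finset.mem_filter.1 hi).1
    exact congr_X h3.1 h3.2.le
  constructor
  · rintro ⟨n, m', hn1, hn2, hm1, hm2, h⟩
    by_contra hjS
    rw [hsplit, if_neg hjS] at h
    have h0 := key_lemma hj1 hj2 (n - nS) (mS - X (K - j) - m')
      (by rw [abs_lt]; constructor <;> linarith [hn.1, hn.2])
      (by rw [abs_lt]; constructor <;> linarith [hm.1, hm.2, X_pos (show 1 ≤ K - j by omega)])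
      (by
        have e : (n - nS) * X (K - 1) - (mS - X (K - j) - m') =
          -(nS * X (K - 1) - ∑ i ∈ A, X (K - i)) -
          (∑ i ∈ A, X (K - i) + 0 + mS - (X (K - j) + n * X (K - 1) + m')) := by ring
        rw [e]
        exact dvd_sub ((dvd_neg).2 hdvd) h)
    linarith [hm.2]
  · intro hjS
    refine ⟨nS, mS, hn.1, hn.2, hm.1, hm.2, ?_⟩
    rw [hsplit, if_pos hjS]
    have e : ∑ i ∈ A, X (K - i) + X (K - j) + mS - (X (K - j) + nS * X (K - 1) + mS) =
      -(nS * X (K - 1) - ∑ i ∈ A, X (K - i)) := by ring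
    rw [e]
    exact (dvd_neg).2 hdvd

end sequence

section main

/-- The group `ℤ × ℤ × ℤ/M`, written multiplicatively. -/
abbrev Gr (M : ℕ) : Type := Multiplicative (ℤ × ℤ × ZMod M)

/-- The four generators `(1,0,-a)`, `(1,0,0)`, `(0,1,1)`, `(0,1,0)`, followed by `l` trivial
ones. -/
def gen (M : ℕ) (a : ℤ) (l : ℕ) : Fin (4 + l) → Gr M :=
  Fin.append ![Multiplicative.ofAdd (1, 0, -(a : ZMod M)), Multiplicative.ofAdd (1, 0, 0),
    Multiplicative.ofAdd (0, 1, 1), Multiplicative.ofAdd (0, 1, 0)] (fun _ => 1)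

theorem mem_gen_iff (M : ℕ) (a : ℤ) (l : ℕ) (N : ℕ) (w h : ℤ) (z : ZMod M) (hw : 0 ≤ w)
    (hh : 0 ≤ h) :
    (Multiplicative.ofAdd (w, h, z) : Gr M) ∈ P (gen M a l) (fun _ => N) ↔
      ∃ n m' : ℤ, 0 ≤ n ∧ n < 2 * N + 1 - w ∧ 0 ≤ m' ∧ m' < 2 * N + 1 - h ∧
        z = ((h - N - a * N + n * a + m' : ℤ) : ZMod M) := by
  rw [mem_P_iff]
  have hprod : ∀ m : Fin (4 + l) → ℤ, ∏ i, gen M a l i ^ m i =
      Multiplicative.ofAdd (m (Fin.castAdd l 0) + m (Fin.castAdd l 1),
        m (Fin.castAdd l 2) + m (Fin.castAdd l 3),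
        ((-a * m (Fin.castAdd l 0) + m (Fin.castAdd l 2) : ℤ) : ZMod M)) := by
    intro m
    rw [Fin.prod_univ_add]
    simp only [gen, Fin.append_left, Fin.append_right, one_zpow, Finset.prod_const_one, mul_one]
    rw [Fin.prod_univ_four]
    apply Multiplicative.toAdd.injective
    simp only [toAdd_mul, toAdd_zpow, Matrix.cons_val_zero, Matrix.cons_val_one,
      Matrix.cons_val_two, Matrix.cons_val_three, Matrix.cons_val, toAdd_ofAdd]
    ext
    · simp
    · simp
    · simp
      ring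
  constructor
  · rintro ⟨m, hm, he⟩
    rw [hprod] at he
    have he2 := Multiplicative.ofAdd.injective he
    rw [Prod.mk.injEq, Prod.mk.injEq] at he2
    obtain ⟨h1, h2, h3⟩ := he2
    have hm0 := abs_le.1 (hm (Fin.castAdd l 0))
    have hm1 := abs_le.1 (hm (Fin.castAdd l 1))
    have hm2 := abs_le.1 (hm (Fin.castAdd l 2))
    have hm3 := abs_le.1 (hm (Fin.castAdd l 3))
    refine ⟨N - m (Fin.castAdd l 0), m (Fin.castAdd l 2) - h + N, by linarith, by linarith,
      by linarith, by linarith, ?_⟩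
    rw [h3]
    congr 1
    ring
  · rintro ⟨n, m', hn1, hn2, hm1, hm2, hz⟩
    refine ⟨Fin.append ![N - n, w - N + n, m' + h - N, N - m'] (fun _ => 0), ?_, ?_⟩
    · intro i
      refine Fin.addCases (fun i => ?_) (fun i => ?_) i
      · rw [Fin.append_left]
        fin_cases i <;> simp [abs_le] <;> constructor <;> linarith
      · rw [Fin.append_right]
        simp
    · rw [hprod]
      have e0 : (Fin.append ![N - n, w - N + n, m' + h - N, N - m'] (fun _ => (0 : ℤ)) :
        Fin (4 + l) → ℤ) (Fin.castAdd l 0) = N - n := by rw [Fin.append_left]; rfl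
      have e1 : (Fin.append ![N - n, w - N + n, m' + h - N, N - m'] (fun _ => (0 : ℤ)) :
        Fin (4 + l) → ℤ) (Fin.castAdd l 1) = w - N + n := by rw [Fin.append_left]; rfl
      have e2 : (Fin.append ![N - n, w - N + n, m' + h - N, N - m'] (fun _ => (0 : ℤ)) :
        Fin (4 + l) → ℤ) (Fin.castAdd l 2) = m' + h - N := by rw [Fin.append_left]; rfl
      have e3 : (Fin.append ![N - n, w - N + n, m' + h - N, N - m'] (fun _ => (0 : ℤ)) :
        Fin (4 + l) → ℤ) (Fin.castAdd l 3) = N - m' := by rw [Fin.append_left]; rfl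
      rw [e0, e1, e2, e3, hz]
      congr 1
      rw [Prod.mk.injEq, Prod.mk.injEq]
      refine ⟨by ring, by ring, ?_⟩
      congr 1
      ring

/-- The points to be shattered. -/
def pt (K M : ℕ) (j : ℕ) : Gr M :=
  Multiplicative.ofAdd (2 * M + 1 - X j, 2 * M + 1 - X (K - j),
    ((2 * M + 1 - X (K - j) - M - X (K - 1) * M - X (K - j) : ℤ) : ZMod M))

theorem pt_mem_iff {K M : ℕ} (hM : (M : ℤ) = X K) (l : ℕ) (S : Finset ℕ)
    (hS : S ⊆ Finset.Ico 1 K) {j : ℕ} (hj : j ∈ Finset.Ico 1 K) :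
    pt K M j ∈ (fun x => Multiplicative.ofAdd ((0 : ℤ), (0 : ℤ),
      -((∑ i ∈ S, X (K - i) : ℤ) : ZMod M)) * x) '' P (gen M (X (K - 1)) l) (fun _ => M) ↔
    j ∈ S := by
  rw [← core S hS hj]
  rw [Finset.mem_Ico] at hj
  have hle1 : X j ≤ M := by rw [hM]; exact X_mono (by omega)
  have hle2 : X (K - j) ≤ M := by rw [hM]; exact X_mono (by omega)
  have hmem : pt K M j ∈ (fun x => Multiplicative.ofAdd ((0 : ℤ), (0 : ℤ),
      -((∑ i ∈ S, X (K - i) : ℤ) : ZMod M)) * x) '' P (gen M (X (K - 1)) l) (fun _ => M) ↔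
      (Multiplicative.ofAdd (2 * M + 1 - X j, 2 * M + 1 - X (K - j),
        ((∑ i ∈ S, X (K - i) + (2 * M + 1 - X (K - j) - M - X (K - 1) * M - X (K - j)) : ℤ)
          : ZMod M)) : Gr M) ∈ P (gen M (X (K - 1)) l) (fun _ => M) := by
    constructor
    · rintro ⟨x, hx, he⟩
      have : x = (Multiplicative.ofAdd (2 * M + 1 - X j, 2 * M + 1 - X (K - j),
        ((∑ i ∈ S, X (K - i) + (2 * M + 1 - X (K - j) - M - X (K - 1) * M - X (K - j)) : ℤ)
          : ZMod M)) : Gr M) := by
        have h2 := eq_inv_mul_of_mul_eq he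
        rw [h2, pt, ← ofAdd_neg, ← ofAdd_add]
        congr 1
        ext
        · simp
        · simp
        · simp
      rwa [this] at hx
    · intro hx
      refine ⟨_, hx, ?_⟩
      show _ * _ = _
      rw [pt, ← ofAdd_add]
      congr 1
      ext
      · simp
      · simp
      · simp
  rw [hmem, mem_gen_iff _ _ _ _ _ _ _ (by linarith) (by linarith)]
  constructor
  · rintro ⟨n, m', h1, h2, h3, h4, h5⟩
    refine ⟨n, m', h1, by linarith, h3, by linarith, ?_⟩
    rw [← hM]
    have h6 := (ZMod.intCast_eq_intCast_iff_dvd_sub _ _ _).1 h5.symm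
    convert h6 using 1
    ring
  · rintro ⟨n, m', h1, h2, h3, h4, h5⟩
    refine ⟨n, m', h1, by linarith, h3, by linarith, ?_⟩
    rw [← hM] at h5
    symm
    rw [ZMod.intCast_eq_intCast_iff_dvd_sub]
    convert h5 using 1
    ring

theorem pt_injOn {K M : ℕ} : Set.InjOn (pt K M) (Finset.Ico 1 K : Set ℕ) := by
  intro i hi j hj hij
  rw [Finset.mem_coe, Finset.mem_Ico] at hi hj
  have h1 := Multiplicative.ofAdd.injective hij
  rw [Prod.mk.injEq] at h1
  have h2 : X i = X j := by linarith [h1.1]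
  have hlt : ∀ i j : ℕ, 1 ≤ i → i < j → X i < X j := by
    intro i j hi hij
    have h3 : X i ≤ X (j - 1) := X_mono (by omega)
    have h4 := X_growth (j - 1)
    rw [show j - 1 + 1 = j by omega] at h4
    have h5 := X_pos hi
    linarith [h4.2.1]
  rcases lt_trichotomy i j with h | h | h
  · exact absurd h2 (hlt i j hi.1 h).ne
  · exact h
  · exact absurd h2 (hlt j i hj.1 h).ne'

theorem shatters_pts {K M : ℕ} (hM : (M : ℤ) = X K) (l : ℕ) :
    Shatters (translates (P (gen M (X (K - 1)) l) (fun _ => M)))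
      ((Finset.Ico 1 K).image (pt K M)) := by
  classical
  intro B hB
  let S : Finset ℕ := (Finset.Ico 1 K).filter (fun j => pt K M j ∈ B)
  have hS : S ⊆ Finset.Ico 1 K := Finset.filter_subset _ _
  refine ⟨_, ⟨Multiplicative.ofAdd ((0 : ℤ), (0 : ℤ), -((∑ i ∈ S, X (K - i) : ℤ) : ZMod M)), rfl⟩,
    ?_⟩
  ext x
  constructor
  · intro hx
    have hxY := hB hx
    refine ⟨?_, hxY⟩
    rw [Finset.mem_coe, Finset.mem_image] at hxY
    obtain ⟨j, hj, rfl⟩ := hxY
    exact (pt_mem_iff hM l S hS hj).2 (Finset.mem_filter.2 ⟨hj, hx⟩)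
  · rintro ⟨hx, hxY⟩
    rw [Finset.mem_coe, Finset.mem_image] at hxY
    obtain ⟨j, hj, rfl⟩ := hxY
    exact (Finset.mem_filter.1 ((pt_mem_iff hM l S hS hj).1 hx)).2

theorem le_VC {X : Type} (𝒮 : Set (Set X)) (Y : Finset X) (h : Shatters 𝒮 Y) :
    (Y.card : ℕ∞) ≤ VC 𝒮 :=
  le_iSup₂_of_le Y h le_rfl

theorem unbounded (l C : ℕ) : ∃ (G : Type) (_ : CommGroup G) (a : Fin (4 + l) → G)
    (N : Fin (4 + l) → ℕ), (C : ℕ∞) < VC (translates (P a N)) := by
  classical
  let K := C + 2
  let M : ℕ := (X K).toNat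
  have hM : (M : ℤ) = X K := Int.toNat_of_nonneg (X_nonneg K)
  refine ⟨Gr M, inferInstance, gen M (X (K - 1)) l, fun _ => M, ?_⟩
  refine lt_of_lt_of_le ?_ (le_VC _ _ (shatters_pts hM l))
  rw [Finset.card_image_of_injOn pt_injOn, Nat.card_Ico]
  exact_mod_cast (show C < C + 2 - 1 by omega)

end main

/-- For every `k ≥ 4` the VC-dimension of the generalized progressions of rank `k` is unbounded
already over abelian groups; in particular Q1 is false, for every `k ≥ 4` and every `s ≥ 1`. -/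
theorem result :
    ¬ Q1 ∧ ∀ k : ℕ, 4 ≤ k → ∀ C : ℕ, ∃ (G : Type) (_ : CommGroup G) (a : Fin k → G)
      (N : Fin k → ℕ), (C : ℕ∞) < VC (translates (P a N)) := by
  have h2 : ∀ k : ℕ, 4 ≤ k → ∀ C : ℕ, ∃ (G : Type) (_ : CommGroup G) (a : Fin k → G)
      (N : Fin k → ℕ), (C : ℕ∞) < VC (translates (P a N)) := by
    intro k hk C
    obtain ⟨l, rfl⟩ := Nat.exists_eq_add_of_le hk
    exact unbounded l C
  refine ⟨?_, h2⟩
  intro h
  obtain ⟨C, hC⟩ := h 4 1 (by norm_num) le_rfl
  obtain ⟨G, _, a, N, hlt⟩ := h2 4 le_rfl C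
  exact absurd (hC G inferInstance CommGroup.nilpotencyClass_le_one a N) (not_le.2 hlt)

end Pool.Agent.Results.MP_19d06a_co.UnboundedVC
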